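import Pool.Agent.H500.HC.Stm
import Pool.Graph.R_seed8.Y800.Frob2
import Pool.Graph.R_seed8.Y115.Tr3

set_option autoImplicit false
set_option linter.unusedSectionVars false

/-!
# Project HC (helper500), part B5: independent split primes
-/

namespace Pool.Agent.H962.HC.Split

open NumberField IsDedekindDomain Filter Topology Polynomial
open Pool.Agent.H500.HC

/-- lying over -/
theorem lying {R S : Type} [CommRing R] [CommRing S] (f : R →+* S) (hf : f.IsIntegral)
    (hinj : Function.Injective f) (P : Ideal R) (hP : P.IsPrime) :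
    ∃ Q : Ideal S, Q.IsPrime ∧ Q.comap f = P := by
  let _ : Algebra R S := f.toAlgebra
  have hi : Algebra.IsIntegral R S := ⟨fun x => hf x⟩
  have hk : (⊥ : Ideal S).comap (algebraMap R S) ≤ P := by
    intro x hx
    rw [Ideal.mem_comap, Ideal.mem_bot] at hx
    have h0 : x = 0 := hinj (by rw [map_zero]; exact hx)
    rw [h0]
    exact P.zero_mem
  obtain ⟨Q, -, hQ, hQP⟩ := Ideal.exists_ideal_over_prime_of_isIntegral P ⊥ hk
  exact ⟨Q, hQ, hQP⟩

theorem cop_mem {R : Type} [CommRing R] {I : Ideal R} (hI : I ≠ ⊤) {a b : ℕ} (h : a.Coprime b)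
    (ha : (a : R) ∈ I) (hb : (b : R) ∈ I) : False := by
  have h1 : IsCoprime (a : ℤ) (b : ℤ) := Nat.isCoprime_iff_coprime.2 h
  obtain ⟨u, w, huw⟩ := h1.map (Int.castRingHom R)
  apply hI
  rw [Ideal.eq_top_iff_one, ← huw]
  refine I.add_mem (I.mul_mem_left _ ?_) (I.mul_mem_left _ ?_)
  · simpa using ha
  · simpa using hb

/-- primes which are completely split in `E` -/
theorem exists_split (E : Type) [Field E] [NumberField E] (S : Finset ℕ) :
    ∃ p : ℕ, p.Prime ∧ p ∉ S ∧ ∀ v : HeightOneSpectrum (𝓞 E), (p : 𝓞 E) ∈ v.asIdeal →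
      Ideal.absNorm v.asIdeal = p := by
  obtain ⟨p, hp, hpS, P, hP, hpP, σ, hσ, τ, hτ⟩ :=
    Pool.Agent.Y800.exists_frob (Pool.Agent.Y115.T.HH E).normalCore
      (Pool.Agent.Y115.T.isOpen_core E) S 1
  have hσ1 : σ ∈ (Pool.Agent.Y115.T.HH E).normalCore := by
    have h1 := (Pool.Agent.Y115.T.HH E).normalCore_normal.conj_mem _ hτ τ⁻¹
    have h2 : τ⁻¹ * (τ * σ * τ⁻¹ * 1⁻¹) * τ⁻¹⁻¹ = σ := by group
    rwa [h2] at h1
  refine ⟨p, hp, hpS, fun v hv => ?_⟩
  obtain ⟨g, hg⟩ := Pool.Agent.Y115.T.exists_pg hp hP hpP v hv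
  have hle : Ideal.absNorm v.asIdeal ≤ p := by
    apply Pool.Agent.Y115.T.absNorm_le hp.one_lt
    intro x
    rw [← hg, Pool.Agent.Y115.T.mem_cm_pg]
    set e := Pool.Agent.Y115.T.eO E (algebraMap (𝓞 E) (Pool.Agent.W569.FM.OO E) x) with he
    have h1 : g⁻¹ * σ * g ∈ Pool.Agent.Y115.T.HH E := Pool.Agent.Y115.T.core_conj hσ1 g
    have h2 := Pool.Agent.Y115.T.smul_algebraMap_HH (F := E) ⟨_, h1⟩ x
    have h3 : σ • g • e = g • e := by
      have h4 : σ * g = g * (g⁻¹ * σ * g) := by group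
      rw [smul_smul, h4, mul_smul]
      exact congrArg (fun y => g • y) h2
    have h5 := hσ (g • e)
    rw [h3] at h5
    rw [map_sub, map_sub, smul_sub, map_pow, map_pow, smul_pow']
    exact h5
  have hdvd : p ∣ Ideal.absNorm v.asIdeal := by
    by_contra hnd
    exact cop_mem v.isPrime.ne_top ((Nat.Prime.coprime_iff_not_dvd hp).2 hnd) hv
      (Ideal.absNorm_mem _)
  have hpos : 0 < Ideal.absNorm v.asIdeal := by
    rw [Nat.pos_iff_ne_zero]
    intro h0
    exact v.ne_bot (Ideal.absNorm_eq_zero_iff.1 h0)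
  exact le_antisymm hle (Nat.le_of_dvd hpos hdvd)

section
variable {K E : Type} [Field K] [NumberField K] [Field E] [NumberField E]

theorem em_inj (σ : K →+* E) : Function.Injective (em σ) := by
  intro x y h
  apply RingOfIntegers.ext
  apply σ.injective
  exact congrArg (fun z : 𝓞 E => (z : E)) h

theorem em_zero (σ : K →+* E) : em σ (0 : 𝓞 K) = 0 := map_zero (RingOfIntegers.mapRingHom σ)
theorem em_pow (σ : K →+* E) (x : 𝓞 K) (n : ℕ) : em σ (x ^ n) = em σ x ^ n :=
  map_pow (RingOfIntegers.mapRingHom σ) x n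
theorem em_nat (σ : K →+* E) (n : ℕ) : em σ (n : 𝓞 K) = n :=
  map_natCast (RingOfIntegers.mapRingHom σ) n

theorem em_integral (σ : K →+* E) : (RingOfIntegers.mapRingHom σ : 𝓞 K →+* 𝓞 E).IsIntegral := by
  apply RingHom.IsIntegral.tower_top (algebraMap ℤ (𝓞 K))
  have h1 : (RingOfIntegers.mapRingHom σ : 𝓞 K →+* 𝓞 E).comp (algebraMap ℤ (𝓞 K)) =
      algebraMap ℤ (𝓞 E) := RingHom.ext_int _ _
  rw [h1]
  exact fun x => Algebra.IsIntegral.isIntegral x

/-- a prime above `p` -/
theorem exists_above (K : Type) [Field K] [NumberField K] {p : ℕ} (hp : p.Prime) :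
    ∃ v : HeightOneSpectrum (𝓞 K), (p : 𝓞 K) ∈ v.asIdeal := by
  have hpz : Prime (p : ℤ) := Nat.prime_iff_prime_int.1 hp
  have hpr : (Ideal.span {(p : ℤ)}).IsPrime := (Ideal.span_singleton_prime hpz.ne_zero).2 hpz
  obtain ⟨Q, hQ, hQp⟩ := lying (algebraMap ℤ (𝓞 K)) (fun x => Algebra.IsIntegral.isIntegral x)
    (RingHom.injective_int _) (Ideal.span {(p : ℤ)}) hpr
  have h1 : (p : 𝓞 K) ∈ Q := by
    have h2 : (p : ℤ) ∈ Q.comap (algebraMap ℤ (𝓞 K)) := by
      rw [hQp]
      exact Ideal.mem_span_singleton_self _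
    rw [Ideal.mem_comap] at h2
    simpa using h2
  refine ⟨⟨Q, hQ, ?_⟩, h1⟩
  rintro rfl
  rw [Ideal.mem_bot] at h1
  exact hp.ne_zero (by exact_mod_cast h1)

/-- a prime of `E` above `v` for the embedding `σ` -/
theorem exists_lift (σ : K →+* E) (v : HeightOneSpectrum (𝓞 K)) :
    ∃ w : HeightOneSpectrum (𝓞 E), ∀ x : 𝓞 K, em σ x ∈ w.asIdeal ↔ x ∈ v.asIdeal := by
  obtain ⟨Q, hQ, hQv⟩ := lying (RingOfIntegers.mapRingHom σ : 𝓞 K →+* 𝓞 E) (em_integral σ)
    (em_inj σ) v.asIdeal v.isPrime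
  have hQ0 : Q ≠ ⊥ := by
    rintro rfl
    apply v.ne_bot
    rw [← hQv]
    rw [eq_bot_iff]
    intro x hx
    rw [Ideal.mem_comap, Ideal.mem_bot] at hx
    rw [Ideal.mem_bot]
    exact em_inj σ (by rw [em_zero]; exact hx)
  have h1 : ∀ x : 𝓞 K, em σ x ∈ Q ↔ x ∈ v.asIdeal := by
    intro x
    rw [← hQv, Ideal.mem_comap]
  exact ⟨⟨Q, hQ, hQ0⟩, h1⟩

end

theorem main : S_Crt → S_Split := by
  classical
  intro hCrt K E _ _ _ _ hcard N m hN
  obtain ⟨B, hB⟩ := hCrt K E hcard
  -- the primes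
  set T : Set ℕ := {p | p.Prime ∧ B < p ∧ N < p ∧ ∀ v : HeightOneSpectrum (𝓞 E),
    (p : 𝓞 E) ∈ v.asIdeal → Ideal.absNorm v.asIdeal = p} with hT
  have hTinf : T.Infinite := by
    apply Set.infinite_of_forall_exists_gt
    intro a
    obtain ⟨p, hp, hpS, hpv⟩ := exists_split E (Finset.range (a + B + N + 1))
    rw [Finset.mem_range, not_lt] at hpS
    exact ⟨p, ⟨hp, by omega, by omega, hpv⟩, by omega⟩
  let ep := hTinf.natEmbedding
  let p : Fin m → ℕ := fun i => (ep i : ℕ)
  have hpinj : Function.Injective p := by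
    intro i j hij
    have h1 : ep i = ep j := Subtype.ext hij
    exact Fin.ext (ep.injective h1)
  have hp : ∀ i, (p i).Prime := fun i => (ep i).2.1
  have hpB : ∀ i, B < p i := fun i => (ep i).2.2.1
  have hpN : ∀ i, N < p i := fun i => (ep i).2.2.2.1
  have hpv : ∀ i, ∀ v : HeightOneSpectrum (𝓞 E), (p i : 𝓞 E) ∈ v.asIdeal →
    Ideal.absNorm v.asIdeal = p i := fun i => (ep i).2.2.2.2
  have hcop : ∀ i j, i ≠ j → (p i).Coprime (p j) := fun i j hij =>
    (Nat.coprime_primes (hp i) (hp j)).2 (fun h => hij (hpinj h))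
  choose v hv using fun i => exists_above K (hp i)
  refine ⟨v, ?_, ?_, ?_⟩
  · intro i j hij
    by_contra hne
    refine cop_mem (v i).isPrime.ne_top (hcop i j hne) (hv i) ?_
    rw [hij]
    exact hv j
  · intro i hi
    refine cop_mem (v i).isPrime.ne_top ?_ (hv i) hi
    rw [Nat.Prime.coprime_iff_not_dvd (hp i)]
    intro hd
    exact absurd (Nat.le_of_dvd hN hd) (not_le.2 (hpN i))
  · intro x h hx n hprod
    funext i σ
    show n i σ = 0
    obtain ⟨w, hw⟩ := exists_lift σ (v i)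
    have hpw : (p i : 𝓞 E) ∈ w.asIdeal := by
      have h1 := (hw (p i : 𝓞 K)).2 (hv i)
      rwa [em_nat] at h1
    have hnorm := hpv i w hpw
    -- the element `x i`
    have hxi : em σ (x i) ∈ w.asIdeal := by
      rw [hw]
      have h1 : x i ∈ (v i).asIdeal ^ h i := by
        rw [(hx i).2]
        exact Ideal.mem_span_singleton_self _
      exact Ideal.pow_le_self (hx i).1.ne' h1
    have hxt : ∀ τ, τ ≠ σ → em τ (x i) ∉ w.asIdeal := by
      intro τ hτ hmem
      obtain ⟨-, h2⟩ := hB w (by rw [hnorm]; exact hp i) (by rw [hnorm]; exact hpB i)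
      obtain ⟨y, -, hy⟩ := h2 1 one_pos
        (by rw [hnorm]; exact fun hd => (hp i).one_lt.ne' (Nat.dvd_one.1 hd))
        (fun ρ => if ρ = σ then 0 else 1)
      have h3 := hy σ
      rw [if_pos rfl, Int.cast_zero, sub_zero, hw] at h3
      have h4 := hy τ
      rw [if_neg hτ, Int.cast_one] at h4
      have h5 : x i ∣ y ^ h i := by
        rw [← Ideal.mem_span_singleton, ← (hx i).2]
        exact Ideal.pow_mem_pow h3 _
      have h6 : em τ (y ^ h i) ∈ w.asIdeal :=
        Ideal.mem_of_dvd _ (map_dvd (RingOfIntegers.mapRingHom τ) h5) hmem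
      have h7 : em τ y ∈ w.asIdeal := by
        rw [em_pow] at h6
        exact w.isPrime.mem_of_pow_mem _ h6
      apply w.isPrime.ne_top
      rw [Ideal.eq_top_iff_one]
      have h8 : (1 : 𝓞 E) = em τ y - (em τ y - 1) := by ring
      rw [h8]
      exact w.asIdeal.sub_mem h7 h4
    have hxj : ∀ j, j ≠ i → ∀ τ, em τ (x j) ∉ w.asIdeal := by
      intro j hj τ hmem
      have h5 : x j ∣ (p j : 𝓞 K) ^ h j := by
        rw [← Ideal.mem_span_singleton, ← (hx j).2]
        exact Ideal.pow_mem_pow (hv j) _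
      have h6 : em τ ((p j : 𝓞 K) ^ h j) ∈ w.asIdeal :=
        Ideal.mem_of_dvd _ (map_dvd (RingOfIntegers.mapRingHom τ) h5) hmem
      have h7 : (p j : 𝓞 E) ∈ w.asIdeal := by
        rw [em_pow, em_nat] at h6
        exact w.isPrime.mem_of_pow_mem _ h6
      exact cop_mem w.isPrime.ne_top (hcop j i hj) h7 hpw
    -- the valuation
    have h1 := congrArg (w.valuation E) hprod
    rw [map_one, map_prod] at h1
    have hval : ∀ j τ, (j ≠ i ∨ τ ≠ σ) → w.valuation E ((em τ (x j) : 𝓞 E) : E) = 1 := by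
      intro j τ hjt
      rw [HeightOneSpectrum.valuation_eq_one_iff_notMem]
      by_cases hj : j = i
      · rcases hjt with h2 | h2
        · exact absurd hj h2
        · rw [hj]
          exact hxt τ h2
      · exact hxj j hj τ
    rw [Finset.prod_eq_single i] at h1
    · rw [map_prod, Finset.prod_eq_single σ] at h1
      · rw [map_zpow₀] at h1
        have h2 : w.valuation E ((em σ (x i) : 𝓞 E) : E) < 1 :=
          (HeightOneSpectrum.valuation_lt_one_iff_mem (K := E) w _).2 hxi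
        exact (zpow_eq_one_iff_right₀ zero_le h2.ne).1 h1
      · intro τ _ hτ
        rw [map_zpow₀, hval i τ (Or.inr hτ), one_zpow]
      · intro h2
        exact absurd (Finset.mem_univ _) h2
    · intro j _ hj
      rw [map_prod]
      refine Finset.prod_eq_one fun τ _ => ?_
      rw [map_zpow₀, hval j τ (Or.inl hj), one_zpow]
    · intro h2
      exact absurd (Finset.mem_univ _) h2

end Pool.Agent.H962.HC.Split
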